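import Pool.Agent.Helper65.FX.SpernerL

/-!
# A convex body in a simplex: the chain of an obtuse superbase of the simplex

`K` lies in the simplex `S` with normals `g` (sum zero) and heights `b` (sum one).  For a superbase which is obtuse for
the form of `S` there is a chain of four lattice points with all four labels; points outside the interior of `S` lie
beyond their facet, points in the interior of `S` carry their free label, and `K` is cut at each of them.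
-/

set_option autoImplicit false

namespace Pool.Agent.Helper65.FX

open Matrix Pool.Agent.Helper12.LW
open Pool.Agent.Helper84.FL (Superbase WidthLe)
open Pool.Agent.Helper21.TET (chainS)
open Pool.Agent.Helper38.TET (Qg Qg_posDef Qg_form det_of_superb chainS_step OChain)

/-- the coefficients of a separating plane in a spanning family with sum zero -/
theorem exists_cut_free {K : Set (Fin 3 → ℝ)} (hconv : Convex ℝ K) (g : Fin 4 → Fin 3 → ℝ) (hg : ∑ j, g j = 0)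
    (hspan : ∀ m : Fin 3 → ℝ, ∃ c : Fin 4 → ℝ, ∑ k, c k • g k = m) (hint : (interior K).Nonempty)
    (z : Fin 3 → ℝ) (hz : z ∉ interior K) :
    ∃ (i0 i1 : Fin 4) (c : Fin 4 → ℝ), i0 ≠ i1 ∧ c i0 = 0 ∧ c i1 = 1 ∧ (∀ i, 0 ≤ c i) ∧ (∀ i, c i ≤ 1) ∧
      (∀ x ∈ K, (∑ i, c i • g i) ⬝ᵥ z ≤ (∑ i, c i • g i) ⬝ᵥ x) ∧
      (∀ x ∈ interior K, (∑ i, c i • g i) ⬝ᵥ z < (∑ i, c i • g i) ⬝ᵥ x) := by
  classical
  obtain ⟨φ, hφ⟩ := geometric_hahn_banach_point_open hconv.interior isOpen_interior hz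
  have hφn : ∀ x : Fin 3 → ℝ, φ x = (fun k => φ (Pi.single k 1)) ⬝ᵥ x := by
    intro x
    have hx : x = ∑ k, x k • (Pi.single k 1 : Fin 3 → ℝ) := by
      funext i
      simp [Finset.sum_apply, Pi.single_apply]
    conv_lhs => rw [hx]
    rw [map_sum]
    simp only [map_smul, smul_eq_mul, dotProduct]
    exact Finset.sum_congr rfl fun k _ => mul_comm _ _
  obtain ⟨n, hn⟩ : ∃ n : Fin 3 → ℝ, n = fun k => φ (Pi.single k 1) := ⟨_, rfl⟩
  have hφ' : ∀ x ∈ interior K, n ⬝ᵥ z < n ⬝ᵥ x := by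
    intro x hx
    have := hφ x hx
    rw [hφn, hφn x, ← hn] at this
    exact this
  have hφK : ∀ x ∈ K, n ⬝ᵥ z ≤ n ⬝ᵥ x := by
    intro x hx
    obtain ⟨y, hy⟩ := hint
    have hcl : x ∈ closure (interior K) := by
      rw [hconv.closure_interior_eq_closure_of_nonempty_interior ⟨y, hy⟩]
      exact subset_closure hx
    have hc : IsClosed {x : Fin 3 → ℝ | n ⬝ᵥ z ≤ n ⬝ᵥ x} :=
      isClosed_le continuous_const (by unfold dotProduct; fun_prop)
    exact (closure_minimal (fun y hy => (hφ' y hy).le) hc) hcl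
  obtain ⟨d, hd⟩ := hspan n
  obtain ⟨i0, h0⟩ := Finite.exists_min d
  obtain ⟨i1, h1⟩ := Finite.exists_max d
  have hne : d i0 < d i1 := by
    by_contra hcon
    push Not at hcon
    have hall : ∀ i, d i = d i0 := fun i => le_antisymm ((h1 i).trans hcon) (h0 i)
    have hn0 : n = 0 := by
      rw [← hd]
      calc ∑ k, d k • g k = ∑ k, d i0 • g k := Finset.sum_congr rfl fun k _ => by rw [hall]
        _ = 0 := by rw [← Finset.smul_sum, hg, smul_zero]
    obtain ⟨y, hy⟩ := hint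
    have := hφ' y hy
    rw [hn0, zero_dotProduct, zero_dotProduct] at this
    exact lt_irrefl _ this
  have hpos : 0 < d i1 - d i0 := sub_pos.2 hne
  have hcomb : ∑ i, ((d i - d i0) / (d i1 - d i0)) • g i = (d i1 - d i0)⁻¹ • n := by
    rw [← hd, Finset.smul_sum]
    have : ∀ i, ((d i - d i0) / (d i1 - d i0)) • g i
        = (d i1 - d i0)⁻¹ • d i • g i - ((d i1 - d i0)⁻¹ * d i0) • g i := by
      intro i
      rw [smul_smul, ← sub_smul]
      congr 1
      field_simp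
    simp only [this]
    rw [Finset.sum_sub_distrib, ← Finset.smul_sum (r := (d i1 - d i0)⁻¹ * d i0), hg, smul_zero, sub_zero]
  refine ⟨i0, i1, fun i => (d i - d i0) / (d i1 - d i0), ?_, ?_, ?_, ?_, ?_, ?_, ?_⟩
  · intro h
    rw [h] at hne
    exact lt_irrefl _ hne
  · show (d i0 - d i0) / (d i1 - d i0) = 0
    rw [sub_self, zero_div]
  · exact div_self hpos.ne'
  · exact fun i => div_nonneg (sub_nonneg.2 (h0 i)) hpos.le
  · exact fun i => (div_le_one hpos).2 (sub_le_sub_right (h1 i) _)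
  · intro x hx
    show (∑ i, ((d i - d i0) / (d i1 - d i0)) • g i) ⬝ᵥ z ≤ (∑ i, ((d i - d i0) / (d i1 - d i0)) • g i) ⬝ᵥ x
    rw [hcomb, smul_dotProduct, smul_dotProduct]
    exact mul_le_mul_of_nonneg_left (hφK x hx) (inv_nonneg.2 hpos.le)
  · intro x hx
    show (∑ i, ((d i - d i0) / (d i1 - d i0)) • g i) ⬝ᵥ z < (∑ i, ((d i - d i0) / (d i1 - d i0)) • g i) ⬝ᵥ x
    rw [hcomb, smul_dotProduct, smul_dotProduct]
    exact mul_lt_mul_of_pos_left (hφ' x hx) (inv_pos.2 hpos)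

/-- **The chain of an obtuse superbase of a simplex around `K`, with free labels at the inner points.**  `s` is the
factor of the simplex with the facets of the outer chain points moved out. -/
theorem echain (g : Fin 4 → Fin 3 → ℝ) (b : Fin 4 → ℝ) (hg : ∑ j, g j = 0) (hb : ∑ j, b j = 1)
    (hspan : ∀ m : Fin 3 → ℝ, ∃ c : Fin 4 → ℝ, ∑ k, c k • g k = m) (lab : (Fin 3 → ℤ) → Fin 4) :
    ∃ (f P : Fin 4 → Fin 3 → ℤ) (ρ : Equiv.Perm (Fin 4)) (s : ℝ) (b' : Fin 4 → ℝ), 0 < s ∧ s ≤ 1 ∧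
      Superbase f ∧ (∀ k, P (k + 1) = P k + f k) ∧ ∑ k, b' k = 1 ∧ (∀ k, s * b (ρ k) ≤ b' k) ∧
      (∀ l m, l ≠ m → ∑ j, ((s • g (ρ j)) ⬝ᵥ toR (f l)) * ((s • g (ρ j)) ⬝ᵥ toR (f m)) ≤ 0) ∧
      ∀ k, b' k = (s • g (ρ k)) ⬝ᵥ toR (P k) ∨
        (b' k = s * b (ρ k) ∧ (∀ j, g j ⬝ᵥ toR (P k) < b j) ∧ lab (P k) = ρ k) := by
  classical
  obtain ⟨f, u, hfu, hob⟩ := Pool.Agent.Helper22.Sym.selling (Qg g) (Qg_posDef g hspan)
  have hdet := det_of_superb f u hfu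
  have hsb := Pool.Agent.Helper1.UB.LW.superbase_of_det f hfu.1 hdet
  obtain ⟨z, σ, ρ, hz⟩ := sperner_free g b hg hspan lab f hfu.1 hdet
  obtain ⟨P, hP⟩ : ∃ P : Fin 4 → Fin 3 → ℤ, P = fun k => z + chainS f σ k := ⟨_, rfl⟩
  -- the new heights
  obtain ⟨B, hB⟩ : ∃ B : Fin 4 → ℝ, B = fun k =>
    if b (ρ k) ≤ g (ρ k) ⬝ᵥ toR (P k) then g (ρ k) ⬝ᵥ toR (P k) else b (ρ k) := ⟨_, rfl⟩
  have hBge : ∀ k, b (ρ k) ≤ B k := by
    intro k
    rw [hB]
    by_cases h : b (ρ k) ≤ g (ρ k) ⬝ᵥ toR (P k)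
    · simp only [if_pos h]
      exact h
    · simp only [if_neg h]
      exact le_refl _
  obtain ⟨h, hh⟩ : ∃ h : ℝ, h = ∑ k, B k := ⟨_, rfl⟩
  have h1 : 1 ≤ h := by
    have h2 : ∑ k, b (ρ k) = 1 := by rw [Equiv.sum_comp ρ b, hb]
    rw [← h2, hh]
    exact Finset.sum_le_sum fun k _ => hBge k
  have hpos : 0 < h := by linarith
  refine ⟨fun l => f (σ l), P, ρ, h⁻¹, fun k => h⁻¹ * B k, inv_pos.2 hpos, inv_le_one_of_one_le₀ h1, ?_, ?_, ?_, ?_,
    ?_, ?_⟩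
  · refine ⟨?_, fun w => ?_⟩
    · rw [Equiv.sum_comp σ f, hfu.1]
    · obtain ⟨a, ha⟩ := hsb.span w
      refine ⟨fun l => a (σ l), ?_⟩
      rw [ha]
      exact (Equiv.sum_comp σ fun l => a l • f l).symm
  · intro k
    rw [hP]
    show z + chainS f σ (k + 1) = z + chainS f σ k + f (σ k)
    rw [chainS_step f hfu.1, add_assoc]
  · rw [← Finset.mul_sum, ← hh, inv_mul_cancel₀ hpos.ne']
  · intro k
    exact mul_le_mul_of_nonneg_left (hBge k) (inv_nonneg.2 hpos.le)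
  · intro l m hlm
    have h2 := hob (σ l) (σ m) fun h => hlm (σ.injective h)
    have h3 : (Pool.Agent.Helper22.Sym.toR (f (σ l))) ⬝ᵥ Qg g *ᵥ
        (Pool.Agent.Helper22.Sym.toR (f (σ m))) = ∑ j, (g j ⬝ᵥ toR (f (σ l))) * (g j ⬝ᵥ toR (f (σ m))) :=
      Qg_form g _ _
    rw [h3] at h2
    have h4 : ∑ j, (h⁻¹ • g (ρ j)) ⬝ᵥ toR (f (σ l)) * ((h⁻¹ • g (ρ j)) ⬝ᵥ toR (f (σ m)))
        = h⁻¹ * h⁻¹ * ∑ j, (g j ⬝ᵥ toR (f (σ l))) * (g j ⬝ᵥ toR (f (σ m))) := by
      rw [← Equiv.sum_comp ρ fun j => (g j ⬝ᵥ toR (f (σ l))) * (g j ⬝ᵥ toR (f (σ m))), Finset.mul_sum]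
      refine Finset.sum_congr rfl fun j _ => ?_
      rw [smul_dotProduct, smul_dotProduct, smul_eq_mul, smul_eq_mul]
      ring
    rw [h4]
    exact mul_nonpos_of_nonneg_of_nonpos (by positivity) h2
  · intro k
    show h⁻¹ * B k = (h⁻¹ • g (ρ k)) ⬝ᵥ toR (P k) ∨ _
    rw [hB]
    by_cases h5 : b (ρ k) ≤ g (ρ k) ⬝ᵥ toR (P k)
    · left
      simp only [if_pos h5]
      rw [smul_dotProduct, smul_eq_mul]
    · right
      simp only [if_neg h5]
      have h6 := hz k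
      rw [hP] at h5 ⊢
      exact ⟨trivial, (h6.resolve_left h5).1, (h6.resolve_left h5).2⟩

end Pool.Agent.Helper65.FX
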