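import Pool.Agent.Helper65.FX.UChain
import Pool.Agent.Helper36.FX.NearW

/-!
# The facts of the near simplex scheme for a maximal lattice-free polytope, facets not moved

`L g b k x = b k - g k . x`.  `Cut M g b c k t w`: the plane `c.L = c.L(w)` through the lattice point `w` of `M`, with
`c k = 0`, `c t = 1`.  `AFacts`: the chain of an obtuse superbase of the asymmetry simplex of four facets; outer chain
points lie on or beyond their facet, inner ones are cut off by a facet of `M`.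
-/

set_option autoImplicit false

namespace Pool.Agent.Helper65.FX

open Matrix Pool.Agent.Helper12.LW
open Pool.Agent.Helper84.FL (Superbase WidthLe)
open Pool.Agent.Helper1.FX.Max (FacetOpt exists_facetOpt)
open Pool.Agent.Helper36.FX (NearOpt)

/-- barycentric coordinates of the simplex -/
def Lc (g : Fin 4 → Fin 3 → ℝ) (b : Fin 4 → ℝ) (k : Fin 4) (x : Fin 3 → ℝ) : ℝ := b k - g k ⬝ᵥ x

theorem Lc_sum {g : Fin 4 → Fin 3 → ℝ} {b : Fin 4 → ℝ} (hg : ∑ j, g j = 0) (hb : ∑ j, b j = 1) (x : Fin 3 → ℝ) :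
    ∑ k, Lc g b k x = 1 := by
  have h1 : ∑ k, g k ⬝ᵥ x = 0 := by rw [← sum_dotProduct, hg, zero_dotProduct]
  unfold Lc
  rw [Finset.sum_sub_distrib, hb, h1, sub_zero]

/-- a half space through the lattice point `w` of `M` which contains `M`, in the coordinates of the simplex -/
structure Cut (M : Set (Fin 3 → ℝ)) (g : Fin 4 → Fin 3 → ℝ) (b : Fin 4 → ℝ) (c : Fin 4 → ℝ) (k t : Fin 4)
    (w : Fin 3 → ℤ) : Prop where
  zero : c k = 0
  one : c t = 1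
  nn : ∀ i, 0 ≤ c i
  le1 : ∀ i, c i ≤ 1
  memM : toR w ∈ M
  le : ∀ x ∈ M, ∑ i, c i * Lc g b i x ≤ ∑ i, c i * Lc g b i (toR w)

/-- the sum with the coefficients of a facet -/
theorem cut_val (g : Fin 4 → Fin 3 → ℝ) (b c : Fin 4 → ℝ) (n : Fin 3 → ℝ) (κ : ℝ) (hn : ∑ i, c i • g i = -(κ • n))
    (x : Fin 3 → ℝ) : ∑ i, c i * Lc g b i x = ∑ i, c i * b i + κ * (n ⬝ᵥ x) := by
  have h1 : (∑ i, c i • g i) ⬝ᵥ x = -(κ * (n ⬝ᵥ x)) := by
    rw [hn, neg_dotProduct, smul_dotProduct, smul_eq_mul]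
  rw [sum_dotProduct] at h1
  simp only [smul_dotProduct, smul_eq_mul] at h1
  unfold Lc
  simp only [mul_sub]
  rw [Finset.sum_sub_distrib, h1]
  ring

/-- spanning family -/
theorem near_span {K : Set (Fin 3 → ℝ)} {s : ℝ} {c : Fin 3 → ℝ} {v : Fin 4 → Fin 3 → ℝ} {b : Fin 4 → ℝ}
    {p : Fin 4 → Fin 3 → ℝ} (h : NearOpt K s c v b p) (hs : 2 < s) (m : Fin 3 → ℝ) :
    ∃ d : Fin 4 → ℝ, ∑ k, d k • v k = m := by
  obtain ⟨A, hA⟩ : ∃ A : Matrix (Fin 3) (Fin 3) ℝ, A = Matrix.of fun i j => ∑ k, v k i * v k j := ⟨_, rfl⟩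
  have hpd : A.PosDef := by rw [hA]; exact h.posDef hs
  have hu : IsUnit A.det := (Matrix.isUnit_iff_isUnit_det A).1 hpd.isUnit
  refine ⟨fun k => v k ⬝ᵥ (A⁻¹ *ᵥ m), ?_⟩
  obtain ⟨u, hu'⟩ : ∃ u, u = A⁻¹ *ᵥ m := ⟨_, rfl⟩
  have hm : A *ᵥ u = m := by
    rw [hu', Matrix.mulVec_mulVec, Matrix.mul_nonsing_inv _ hu, Matrix.one_mulVec]
  rw [← hu', ← hm, hA]
  funext i
  simp only [Finset.sum_apply, Pi.smul_apply, smul_eq_mul, mulVec, dotProduct, Matrix.of_apply, Fin.sum_univ_three,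
    Fin.sum_univ_four]
  ring

/-- every lattice point beyond a facet of the polytope -/
theorem FacetOpt.beyond {M : Set (Fin 3 → ℝ)} {T : Finset (Fin 3 → ℤ)} {v : (Fin 3 → ℤ) → Fin 3 → ℝ}
    (hfree : LFree M) (heq : M = {x | ∀ z ∈ T, v z ⬝ᵥ x ≤ v z ⬝ᵥ toR z}) (x : Fin 3 → ℤ) :
    ∃ w ∈ T, v w ⬝ᵥ toR w ≤ v w ⬝ᵥ toR x := by
  by_contra hcon
  push Not at hcon
  apply hfree.free x
  have hopen : IsOpen {y : Fin 3 → ℝ | ∀ z ∈ T, v z ⬝ᵥ y < v z ⬝ᵥ toR z} := by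
    have h1 : {y : Fin 3 → ℝ | ∀ z ∈ T, v z ⬝ᵥ y < v z ⬝ᵥ toR z}
        = ⋂ z ∈ T, {y : Fin 3 → ℝ | v z ⬝ᵥ y < v z ⬝ᵥ toR z} := by
      ext y
      simp
    rw [h1]
    refine isOpen_biInter_finset fun z _ => isOpen_lt ?_ continuous_const
    unfold dotProduct
    fun_prop
  refine mem_interior.2 ⟨_, ?_, hopen, hcon⟩
  intro y hy
  rw [heq]
  exact fun z hz => (hy z hz).le

/-- the facet simplex does not depend on the order of its facets -/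
theorem nearOpt_perm {K : Set (Fin 3 → ℝ)} {s : ℝ} {c : Fin 3 → ℝ} {v : Fin 4 → Fin 3 → ℝ} {b : Fin 4 → ℝ}
    {p : Fin 4 → Fin 3 → ℝ} (h : NearOpt K s c v b p) (ρ : Equiv.Perm (Fin 4)) :
    NearOpt K s c (fun k => v (ρ k)) (fun k => b (ρ k)) (fun k => p (ρ k)) where
  one_le := h.one_le
  sum_v := (Equiv.sum_comp ρ v).trans h.sum_v
  sum_b := (Equiv.sum_comp ρ b).trans h.sum_b
  le := fun k => h.le (ρ k)
  cmem := h.cmem
  centre := h.centre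
  mem := fun k => h.mem (ρ k)
  val := fun k => h.val (ρ k)

/-- **The facts.** `g`, `b` are four facets of `M` through the lattice points `z k` of `M`, `P` is a chain of the
superbase `f`, obtuse for the form of `g`; inner chain points are cut off by the facet `c k`, `c k k = 0`,
`c k (t k) = 1`, through the lattice point `w k` of `M`. -/
structure AFacts (M : Set (Fin 3 → ℝ)) (s : ℝ) (o : Fin 3 → ℝ) (g : Fin 4 → Fin 3 → ℝ) (b : Fin 4 → ℝ)
    (p : Fin 4 → Fin 3 → ℝ) (z : Fin 4 → Fin 3 → ℤ) (f P : Fin 4 → Fin 3 → ℤ) (c : Fin 4 → Fin 4 → ℝ)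
    (t : Fin 4 → Fin 4) (w : Fin 4 → Fin 3 → ℤ) : Prop where
  free : LFree M
  wide : ¬ WidthLe M (2 + Real.sqrt 2)
  asym : 266 / 100 < s
  near : NearOpt M s o g b p
  span : ∀ m : Fin 3 → ℝ, ∃ d : Fin 4 → ℝ, ∑ k, d k • g k = m
  inj : Function.Injective z
  zM : ∀ k, toR (z k) ∈ M
  zb : ∀ k, g k ⬝ᵥ toR (z k) = b k
  superb : Superbase f
  step : ∀ k, P (k + 1) = P k + f k
  obt : ∀ l m, l ≠ m → ∑ j, (g j ⬝ᵥ toR (f l)) * (g j ⬝ᵥ toR (f m)) ≤ 0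
  chain : ∀ k, b k ≤ g k ⬝ᵥ toR (P k) ∨
    ((∀ j, g j ⬝ᵥ toR (P k) < b j) ∧ Cut M g b (c k) k (t k) (w k) ∧
      ∑ i, c k i * Lc g b i (toR (w k)) ≤ ∑ i, c k i * Lc g b i (toR (P k)))
  beyond : ∀ x : Fin 3 → ℤ, (∃ j, b j ≤ g j ⬝ᵥ toR x) ∨
    ((∀ j, g j ⬝ᵥ toR x < b j) ∧ ∃ (c' : Fin 4 → ℝ) (i0 i1 : Fin 4) (y : Fin 3 → ℤ), i0 ≠ i1 ∧
      Cut M g b c' i0 i1 y ∧ ∑ i, c' i * Lc g b i (toR y) ≤ ∑ i, c' i * Lc g b i (toR x))

/-- **Existence, with natural labels chosen per facet.** -/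
theorem exists_afacts {K : Set (Fin 3 → ℝ)} (hK : LFree K) (hw : ¬ WidthLe K (2 + Real.sqrt 2)) :
    ∃ M s o g b p z f P c t w, K ⊆ M ∧ AFacts M s o g b p z f P c t w := by
  classical
  obtain ⟨M, T, v, s, o, z, lam, p, hKM, h⟩ := exists_facetOpt hK hw
  have hs2 : 2 < s := by have := h.asym; linarith
  have hsp := near_span h.near hs2
  obtain ⟨g, hgdef⟩ : ∃ g : Fin 4 → Fin 3 → ℝ, g = fun k => lam k • v (z k) := ⟨_, rfl⟩
  obtain ⟨b, hbdef⟩ : ∃ b : Fin 4 → ℝ, b = fun k => (lam k • v (z k)) ⬝ᵥ toR (z k) := ⟨_, rfl⟩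
  have hnear : NearOpt M s o g b p := by rw [hgdef, hbdef]; exact h.near
  have hspan : ∀ m : Fin 3 → ℝ, ∃ d : Fin 4 → ℝ, ∑ k, d k • g k = m := near_span hnear hs2
  -- the coefficients of all facets
  have hcoef : ∀ y : Fin 3 → ℤ, ∃ (i0 i1 : Fin 4) (c : Fin 4 → ℝ), y ∈ T → i0 ≠ i1 ∧ Cut M g b c i0 i1 y ∧
      ∃ κ : ℝ, 0 < κ ∧ ∑ i, c i • g i = -(κ • v y) := by
    intro y
    by_cases hy : y ∈ T
    · obtain ⟨i0, i1, c, κ, h1, h2, h3, h4, h5, h6, h7⟩ := facet_cut g hnear.sum_v hspan (v y) (h.ne y hy)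
      refine ⟨i0, i1, c, fun _ => ⟨h1, ⟨h2, h3, h4, h5, h.memT y hy, fun x hx => ?_⟩, κ, h6, h7⟩⟩
      rw [cut_val g b c (v y) κ h7, cut_val g b c (v y) κ h7]
      have h8 : v y ⬝ᵥ x ≤ v y ⬝ᵥ toR y := by
        rw [h.eq] at hx
        exact hx y hy
      have h9 := mul_le_mul_of_nonneg_left h8 h6.le
      linarith
    · exact ⟨0, 0, 0, fun h' => absurd h' hy⟩
  choose I0 I1 CC hCC using hcoef
  have hbey := FacetOpt.beyond h.free h.eq
  choose wf hwf1 hwf2 using hbey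
  have hcutx : ∀ x : Fin 3 → ℤ, I0 (wf x) ≠ I1 (wf x) ∧ Cut M g b (CC (wf x)) (I0 (wf x)) (I1 (wf x)) (wf x) ∧
      ∑ i, CC (wf x) i * Lc g b i (toR (wf x)) ≤ ∑ i, CC (wf x) i * Lc g b i (toR x) := by
    intro x
    obtain ⟨h1, h2, κ, h3, h4⟩ := hCC (wf x) (hwf1 x)
    refine ⟨h1, h2, ?_⟩
    rw [cut_val g b _ (v (wf x)) κ h4, cut_val g b _ (v (wf x)) κ h4]
    have h9 := mul_le_mul_of_nonneg_left (hwf2 x) h3.le
    linarith
  obtain ⟨f, P, ρ, hsb, hstep, hobt, hlab⟩ := uchain g b hnear.sum_v hspan (fun x => I0 (wf x))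
  refine ⟨M, s, o, fun k => g (ρ k), fun k => b (ρ k), fun k => p (ρ k), fun k => z (ρ k), f, P,
    fun k i => CC (wf (P k)) (ρ i), fun k => ρ.symm (I1 (wf (P k))), fun k => wf (P k), hKM,
    ⟨h.free, h.wide, h.asym, nearOpt_perm hnear ρ, ?_, h.inj.comp ρ.injective, fun k => h.memT _ (h.zT _), ?_, hsb,
      hstep, ?_, ?_, ?_⟩⟩
  · intro m
    obtain ⟨d, hd⟩ := hspan m
    refine ⟨fun k => d (ρ k), ?_⟩
    rw [← hd]
    exact Equiv.sum_comp ρ fun k => d k • g k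
  · intro k
    rw [hgdef, hbdef]
  · intro l m hlm
    rw [Equiv.sum_comp ρ fun j => (g j ⬝ᵥ toR (f l)) * (g j ⬝ᵥ toR (f m))]
    exact hobt l m hlm
  · intro k
    rcases hlab k with h1 | ⟨h1, h2⟩
    · exact Or.inl h1
    · right
      obtain ⟨h3, h4, h5⟩ := hcutx (P k)
      refine ⟨fun j => h1 (ρ j), ⟨?_, ?_, fun i => h4.nn _, fun i => h4.le1 _, h4.memM, fun x hx => ?_⟩, ?_⟩
      · show CC (wf (P k)) (ρ k) = 0
        rw [← h2]
        exact h4.zero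
      · show CC (wf (P k)) (ρ (ρ.symm (I1 (wf (P k))))) = 1
        rw [Equiv.apply_symm_apply]
        exact h4.one
      · have h6 := h4.le x hx
        have h7 : ∀ y : Fin 3 → ℝ, ∑ i, CC (wf (P k)) (ρ i) * Lc (fun k => g (ρ k)) (fun k => b (ρ k)) i y
            = ∑ i, CC (wf (P k)) i * Lc g b i y := fun y =>
          Equiv.sum_comp ρ fun i => CC (wf (P k)) i * Lc g b i y
        rw [h7, h7]
        exact h6
      · have h7 : ∀ y : Fin 3 → ℝ, ∑ i, CC (wf (P k)) (ρ i) * Lc (fun k => g (ρ k)) (fun k => b (ρ k)) i y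
            = ∑ i, CC (wf (P k)) i * Lc g b i y := fun y =>
          Equiv.sum_comp ρ fun i => CC (wf (P k)) i * Lc g b i y
        show ∑ i, CC (wf (P k)) (ρ i) * Lc (fun k => g (ρ k)) (fun k => b (ρ k)) i (toR (wf (P k)))
          ≤ ∑ i, CC (wf (P k)) (ρ i) * Lc (fun k => g (ρ k)) (fun k => b (ρ k)) i (toR (P k))
        rw [h7, h7]
        exact h5
  · intro x
    by_cases hx : ∃ j, b (ρ j) ≤ g (ρ j) ⬝ᵥ toR x
    · exact Or.inl hx
    · right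
      push Not at hx
      obtain ⟨h3, h4, h5⟩ := hcutx x
      have h7 : ∀ y : Fin 3 → ℝ, ∑ i, CC (wf x) (ρ i) * Lc (fun k => g (ρ k)) (fun k => b (ρ k)) i y
          = ∑ i, CC (wf x) i * Lc g b i y := fun y =>
        Equiv.sum_comp ρ fun i => CC (wf x) i * Lc g b i y
      refine ⟨hx, fun i => CC (wf x) (ρ i), ρ.symm (I0 (wf x)), ρ.symm (I1 (wf x)), wf x,
        fun he => h3 (ρ.symm.injective he), ⟨?_, ?_, fun i => h4.nn _, fun i => h4.le1 _, h4.memM, fun y hy => ?_⟩, ?_⟩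
      · show CC (wf x) (ρ (ρ.symm (I0 (wf x)))) = 0
        rw [Equiv.apply_symm_apply]
        exact h4.zero
      · show CC (wf x) (ρ (ρ.symm (I1 (wf x)))) = 1
        rw [Equiv.apply_symm_apply]
        exact h4.one
      · rw [h7, h7]
        exact h4.le y hy
      · rw [h7, h7]
        exact h5

end Pool.Agent.Helper65.FX
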