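import Pool.Agent.Helper65.FX.AFacts

/-!
# The family of facets of a maximal lattice-free polytope in the coordinates of the asymmetry simplex

`FFacts`: the facets are indexed by lattice points `y ∈ T` in their relative interiors, `cc y` are the coefficients of
the facet `y`, `cc y (i0 y) = 0`, `cc y (i1 y) = 1`; `wf x` is a facet beyond which the lattice point `x` lies.
`ChainF`: the chain of the obtuse superbase with the natural labels `i0 (wf x)` of the inner points.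
-/

set_option autoImplicit false

namespace Pool.Agent.Helper65.FX

open Matrix Pool.Agent.Helper12.LW
open Pool.Agent.Helper84.FL (Superbase WidthLe)
open Pool.Agent.Helper1.FX.Max (FacetOpt exists_facetOpt)
open Pool.Agent.Helper36.FX (NearOpt)

/-- the facets in the coordinates of the simplex -/
structure FFacts (M : Set (Fin 3 → ℝ)) (s : ℝ) (o : Fin 3 → ℝ) (g : Fin 4 → Fin 3 → ℝ) (b : Fin 4 → ℝ)
    (p : Fin 4 → Fin 3 → ℝ) (z : Fin 4 → Fin 3 → ℤ) (T : Finset (Fin 3 → ℤ)) (cc : (Fin 3 → ℤ) → Fin 4 → ℝ)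
    (i0 i1 : (Fin 3 → ℤ) → Fin 4) (wf : (Fin 3 → ℤ) → Fin 3 → ℤ) : Prop where
  free : LFree M
  wide : ¬ WidthLe M (2 + Real.sqrt 2)
  asym : 266 / 100 < s
  near : NearOpt M s o g b p
  span : ∀ m : Fin 3 → ℝ, ∃ d : Fin 4 → ℝ, ∑ k, d k • g k = m
  inj : Function.Injective z
  zT : ∀ k, z k ∈ T
  zb : ∀ k, g k ⬝ᵥ toR (z k) = b k
  ne : ∀ y ∈ T, i0 y ≠ i1 y
  cut : ∀ y ∈ T, Cut M g b (cc y) (i0 y) (i1 y) y
  rel : ∀ y ∈ T, ∀ y' ∈ T, y' ≠ y → ∑ i, cc y i * Lc g b i (toR y') < ∑ i, cc y i * Lc g b i (toR y)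
  grel : ∀ k, ∀ y ∈ T, y ≠ z k → g k ⬝ᵥ toR y < b k
  wfT : ∀ x, wf x ∈ T
  beyond : ∀ x, ∑ i, cc (wf x) i * Lc g b i (toR (wf x)) ≤ ∑ i, cc (wf x) i * Lc g b i (toR x)
  wfne : ∀ x : Fin 3 → ℤ, (∀ j, g j ⬝ᵥ toR x < b j) → ∀ k, wf x ≠ z k

/-- the chain with labels `lab` on the inner points -/
structure ChainF (g : Fin 4 → Fin 3 → ℝ) (b : Fin 4 → ℝ) (lab : (Fin 3 → ℤ) → Fin 4) (f P : Fin 4 → Fin 3 → ℤ) :
    Prop where
  superb : Superbase f
  step : ∀ k, P (k + 1) = P k + f k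
  obt : ∀ l m, l ≠ m → ∑ j, (g j ⬝ᵥ toR (f l)) * (g j ⬝ᵥ toR (f m)) ≤ 0
  chain : ∀ k, b k ≤ g k ⬝ᵥ toR (P k) ∨ ((∀ j, g j ⬝ᵥ toR (P k) < b j) ∧ lab (P k) = k)

/-- the permuted sum -/
theorem perm_sum (g : Fin 4 → Fin 3 → ℝ) (b c : Fin 4 → ℝ) (ρ : Equiv.Perm (Fin 4)) (x : Fin 3 → ℝ) :
    ∑ i, c (ρ i) * Lc (fun k => g (ρ k)) (fun k => b (ρ k)) i x = ∑ i, c i * Lc g b i x :=
  Equiv.sum_comp ρ fun i => c i * Lc g b i x

theorem Cut.perm {M : Set (Fin 3 → ℝ)} {g : Fin 4 → Fin 3 → ℝ} {b c : Fin 4 → ℝ} {k t : Fin 4} {w : Fin 3 → ℤ}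
    (h : Cut M g b c k t w) (ρ : Equiv.Perm (Fin 4)) :
    Cut M (fun k => g (ρ k)) (fun k => b (ρ k)) (fun i => c (ρ i)) (ρ.symm k) (ρ.symm t) w where
  zero := by rw [Equiv.apply_symm_apply]; exact h.zero
  one := by rw [Equiv.apply_symm_apply]; exact h.one
  nn := fun i => h.nn _
  le1 := fun i => h.le1 _
  memM := h.memM
  le := fun x hx => by rw [perm_sum, perm_sum]; exact h.le x hx

/-- the facts do not depend on the order of the facets -/
theorem FFacts.perm {M : Set (Fin 3 → ℝ)} {s : ℝ} {o : Fin 3 → ℝ} {g : Fin 4 → Fin 3 → ℝ} {b : Fin 4 → ℝ}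
    {p : Fin 4 → Fin 3 → ℝ} {z : Fin 4 → Fin 3 → ℤ} {T : Finset (Fin 3 → ℤ)} {cc : (Fin 3 → ℤ) → Fin 4 → ℝ}
    {i0 i1 : (Fin 3 → ℤ) → Fin 4} {wf : (Fin 3 → ℤ) → Fin 3 → ℤ} (h : FFacts M s o g b p z T cc i0 i1 wf)
    (ρ : Equiv.Perm (Fin 4)) :
    FFacts M s o (fun k => g (ρ k)) (fun k => b (ρ k)) (fun k => p (ρ k)) (fun k => z (ρ k)) T (fun y i => cc y (ρ i))
      (fun y => ρ.symm (i0 y)) (fun y => ρ.symm (i1 y)) wf where
  free := h.free
  wide := h.wide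
  asym := h.asym
  near := nearOpt_perm h.near ρ
  span := fun m => by
    obtain ⟨d, hd⟩ := h.span m
    refine ⟨fun k => d (ρ k), ?_⟩
    rw [← hd]
    exact Equiv.sum_comp ρ fun k => d k • g k
  inj := h.inj.comp ρ.injective
  zT := fun k => h.zT _
  zb := fun k => h.zb _
  ne := fun y hy he => h.ne y hy (ρ.symm.injective he)
  cut := fun y hy => (h.cut y hy).perm ρ
  rel := fun y hy y' hy' he => by rw [perm_sum, perm_sum]; exact h.rel y hy y' hy' he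
  grel := fun k y hy he => h.grel _ y hy he
  wfT := h.wfT
  beyond := fun x => by rw [perm_sum, perm_sum]; exact h.beyond x
  wfne := fun x hx k => h.wfne x (fun j => by
    have := hx (ρ.symm j)
    rwa [Equiv.apply_symm_apply] at this) _

/-- **The facets of a maximal polytope.** -/
theorem exists_ffacts {K : Set (Fin 3 → ℝ)} (hK : LFree K) (hw : ¬ WidthLe K (2 + Real.sqrt 2)) :
    ∃ M s o g b p z T cc i0 i1 wf, K ⊆ M ∧ FFacts M s o g b p z T cc i0 i1 wf := by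
  classical
  obtain ⟨M, T, v, s, o, z, lam, p, hKM, h⟩ := exists_facetOpt hK hw
  have hs2 : 2 < s := by have := h.asym; linarith
  obtain ⟨g, hgdef⟩ : ∃ g : Fin 4 → Fin 3 → ℝ, g = fun k => lam k • v (z k) := ⟨_, rfl⟩
  obtain ⟨b, hbdef⟩ : ∃ b : Fin 4 → ℝ, b = fun k => (lam k • v (z k)) ⬝ᵥ toR (z k) := ⟨_, rfl⟩
  have hnear : NearOpt M s o g b p := by rw [hgdef, hbdef]; exact h.near
  have hspan : ∀ m : Fin 3 → ℝ, ∃ d : Fin 4 → ℝ, ∑ k, d k • g k = m := near_span hnear hs2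
  have hcoef : ∀ y : Fin 3 → ℤ, ∃ (i0 i1 : Fin 4) (c : Fin 4 → ℝ), y ∈ T → i0 ≠ i1 ∧ Cut M g b c i0 i1 y ∧
      ∃ κ : ℝ, 0 < κ ∧ ∑ i, c i • g i = -(κ • v y) := by
    intro y
    by_cases hy : y ∈ T
    · obtain ⟨i0, i1, c, κ, h1, h2, h3, h4, h5, h6, h7⟩ := facet_cut g hnear.sum_v hspan (v y) (h.ne y hy)
      refine ⟨i0, i1, c, fun _ => ⟨h1, ⟨h2, h3, h4, h5, h.memT y hy, fun x hx => ?_⟩, κ, h6, h7⟩⟩
      rw [cut_val g b c (v y) κ h7, cut_val g b c (v y) κ h7]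
      have h8 : v y ⬝ᵥ x ≤ v y ⬝ᵥ toR y := by
        rw [h.eq] at hx
        exact hx y hy
      have h9 := mul_le_mul_of_nonneg_left h8 h6.le
      linarith
    · exact ⟨0, 0, 0, fun h' => absurd h' hy⟩
  choose I0 I1 CC hCC using hcoef
  have hbey := FacetOpt.beyond h.free h.eq
  choose wf hwf1 hwf2 using hbey
  refine ⟨M, s, o, g, b, p, z, T, CC, I0, I1, wf, hKM, ⟨h.free, h.wide, h.asym, hnear, hspan, h.inj, h.zT, ?_,
    fun y hy => (hCC y hy).1, fun y hy => (hCC y hy).2.1, ?_, ?_, hwf1, ?_, ?_⟩⟩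
  · intro k
    rw [hgdef, hbdef]
  · intro y hy y' hy' hne
    obtain ⟨h1, h2, κ, h3, h4⟩ := hCC y hy
    rw [cut_val g b _ (v y) κ h4, cut_val g b _ (v y) κ h4]
    have h5 := mul_lt_mul_of_pos_left (h.rel y' hy' y hy hne.symm) h3
    linarith
  · intro k y hy hne
    rw [hgdef, hbdef]
    simp only [smul_dotProduct, smul_eq_mul]
    exact mul_lt_mul_of_pos_left (h.rel y hy (z k) (h.zT k) hne.symm) (h.pos k)
  · intro x
    obtain ⟨h1, h2, κ, h3, h4⟩ := hCC (wf x) (hwf1 x)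
    rw [cut_val g b _ (v (wf x)) κ h4, cut_val g b _ (v (wf x)) κ h4]
    have h9 := mul_le_mul_of_nonneg_left (hwf2 x) h3.le
    linarith
  · intro x hx k he
    have h1 := hx k
    have h2 := hwf2 x
    rw [he] at h2
    rw [hgdef, hbdef] at h1
    simp only [smul_dotProduct, smul_eq_mul] at h1
    have h3 := lt_of_mul_lt_mul_left h1 (h.pos k).le
    linarith

/-- **The chain with natural labels, facets not moved.** -/
theorem exists_chainF {K : Set (Fin 3 → ℝ)} (hK : LFree K) (hw : ¬ WidthLe K (2 + Real.sqrt 2)) :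
    ∃ M s o g b p z T cc i0 i1 wf f P, K ⊆ M ∧ FFacts M s o g b p z T cc i0 i1 wf ∧
      ChainF g b (fun x => i0 (wf x)) f P := by
  obtain ⟨M, s, o, g, b, p, z, T, cc, i0, i1, wf, hKM, h⟩ := exists_ffacts hK hw
  obtain ⟨f, P, ρ, hsb, hstep, hobt, hlab⟩ := uchain g b h.near.sum_v h.span (fun x => i0 (wf x))
  refine ⟨M, s, o, _, _, _, _, T, _, _, _, wf, f, P, hKM, h.perm ρ, ⟨hsb, hstep, ?_, ?_⟩⟩
  · intro l m hlm
    rw [Equiv.sum_comp ρ fun j => (g j ⬝ᵥ toR (f l)) * (g j ⬝ᵥ toR (f m))]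
    exact hobt l m hlm
  · intro k
    rcases hlab k with h1 | ⟨h1, h2⟩
    · exact Or.inl h1
    · refine Or.inr ⟨fun j => h1 (ρ j), ?_⟩
      show ρ.symm (i0 (wf (P k))) = k
      rw [h2, Equiv.symm_apply_apply]

namespace FFacts

variable {M : Set (Fin 3 → ℝ)} {s : ℝ} {o : Fin 3 → ℝ} {g : Fin 4 → Fin 3 → ℝ} {b : Fin 4 → ℝ}
  {p : Fin 4 → Fin 3 → ℝ} {z : Fin 4 → Fin 3 → ℤ} {T : Finset (Fin 3 → ℤ)} {cc : (Fin 3 → ℤ) → Fin 4 → ℝ}
  {i0 i1 : (Fin 3 → ℤ) → Fin 4} {wf : (Fin 3 → ℤ) → Fin 3 → ℤ}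

/-- inner lattice points -/
def Inner (g : Fin 4 → Fin 3 → ℝ) (b : Fin 4 → ℝ) (x : Fin 3 → ℤ) : Prop := ∀ j, g j ⬝ᵥ toR x < b j

theorem Inner.pos {x : Fin 3 → ℤ} (h : Inner g b x) (j : Fin 4) : 0 < Lc g b j (toR x) := sub_pos.2 (h j)

theorem zM (h : FFacts M s o g b p z T cc i0 i1 wf) (k : Fin 4) : toR (z k) ∈ M := (h.cut _ (h.zT k)).memM

theorem sum_L (h : FFacts M s o g b p z T cc i0 i1 wf) (x : Fin 3 → ℝ) : ∑ k, Lc g b k x = 1 :=
  Lc_sum h.near.sum_v h.near.sum_b x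

theorem L_nonneg (h : FFacts M s o g b p z T cc i0 i1 wf) (k : Fin 4) {x : Fin 3 → ℝ} (hx : x ∈ M) :
    0 ≤ Lc g b k x := h.near.L_nonneg k hx

theorem L_self (h : FFacts M s o g b p z T cc i0 i1 wf) (k : Fin 4) : Lc g b k (toR (z k)) = 0 := by
  unfold Lc
  rw [h.zb k, sub_self]

/-- (R) -/
theorem L_z_pos (h : FFacts M s o g b p z T cc i0 i1 wf) (i k : Fin 4) (hik : i ≠ k) :
    0 < Lc g b i (toR (z k)) := sub_pos.2 (h.grel i _ (h.zT k) fun he => hik (h.inj he).symm)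

/-- the contact points of the other facets are inner -/
theorem inner_T (h : FFacts M s o g b p z T cc i0 i1 wf) (y : Fin 3 → ℤ) (hy : y ∈ T) (hne : ∀ k, y ≠ z k) :
    Inner g b y := fun k => h.grel k y hy (hne k)

/-- the facet of an inner point: its contact point is inner -/
theorem inner_wf (h : FFacts M s o g b p z T cc i0 i1 wf) {x : Fin 3 → ℤ} (hx : Inner g b x) : Inner g b (wf x) :=
  h.inner_T _ (h.wfT x) (h.wfne x hx)

/-- the contact points `z k` are strictly inside the facet of an inner point -/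
theorem z_lt (h : FFacts M s o g b p z T cc i0 i1 wf) {x : Fin 3 → ℤ} (hx : Inner g b x) (k : Fin 4) :
    ∑ i, cc (wf x) i * Lc g b i (toR (z k)) < ∑ i, cc (wf x) i * Lc g b i (toR (wf x)) :=
  h.rel _ (h.wfT x) _ (h.zT k) (h.wfne x hx k).symm

/-- an inner point in the interior of no other facet: the contact point `z k` is not an inner point -/
theorem ne_z (h : FFacts M s o g b p z T cc i0 i1 wf) {x : Fin 3 → ℤ} (hx : Inner g b x) (k : Fin 4) : x ≠ z k := by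
  intro he
  have := hx k
  rw [he, h.zb k] at this
  exact lt_irrefl _ this

/-- distinct labels, distinct facets -/
theorem wf_ne {x y : Fin 3 → ℤ} (he : i0 (wf x) ≠ i0 (wf y)) : wf x ≠ wf y := fun h' => he (by rw [h'])

/-- the contact point of one facet is strictly inside the other -/
theorem wf_lt (h : FFacts M s o g b p z T cc i0 i1 wf) {x y : Fin 3 → ℤ} (he : wf x ≠ wf y) :
    ∑ i, cc (wf x) i * Lc g b i (toR (wf y)) < ∑ i, cc (wf x) i * Lc g b i (toR (wf x)) :=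
  h.rel _ (h.wfT x) _ (h.wfT y) he.symm

theorem eps_sum (h : FFacts M s o g b p z T cc i0 i1 wf) : ∑ k, (1 - Lc g b k (p k)) = 3 - s := h.near.eps

theorem eps_nonneg (h : FFacts M s o g b p z T cc i0 i1 wf) (k : Fin 4) : 0 ≤ 1 - Lc g b k (p k) :=
  sub_nonneg.2 (h.near.L_le k (h.near.mem k))

theorem eps_lt (h : FFacts M s o g b p z T cc i0 i1 wf) (k : Fin 4) : 1 - Lc g b k (p k) < 34 / 100 := by
  have h1 := h.eps_sum
  have h2 : 1 - Lc g b k (p k) ≤ ∑ k, (1 - Lc g b k (p k)) :=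
    Finset.single_le_sum (f := fun k => 1 - Lc g b k (p k)) (fun l _ => h.eps_nonneg l) (Finset.mem_univ k)
  have h3 := h.asym
  linarith

end FFacts

end Pool.Agent.Helper65.FX
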