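import Pool.Agent.Helper65.FX.AFam

/-!
# The rows of the near simplex scheme for a maximal lattice-free polytope

`lev g b c y = c.L(y)`.  Rows of a cut `c k = 0`, `c t = 1` through `y` with `M ⊆ {c.L ≤ h}`, `h = c.L(y)`:
`(p)` `1 - h ≤ eps t`, `c j (1 - eps j) ≤ h`; `(S)` `s (1 - h) ≤ r.L(p) ≤ r a + r b`; the deep point bound.
-/

set_option autoImplicit false

namespace Pool.Agent.Helper65.FX

open Matrix Pool.Agent.Helper12.LW
open Pool.Agent.Helper36.FX (NearOpt)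

/-- the level of a point -/
def lev (g : Fin 4 → Fin 3 → ℝ) (b : Fin 4 → ℝ) (c : Fin 4 → ℝ) (x : Fin 3 → ℝ) : ℝ := ∑ i, c i * Lc g b i x

section
variable {M : Set (Fin 3 → ℝ)} {s : ℝ} {o : Fin 3 → ℝ} {g : Fin 4 → Fin 3 → ℝ} {b : Fin 4 → ℝ}
  {p : Fin 4 → Fin 3 → ℝ} {c : Fin 4 → ℝ} {k t : Fin 4} {y : Fin 3 → ℤ}

/-- the complementary coefficients -/
theorem one_sub_lev (hn : NearOpt M s o g b p) (c : Fin 4 → ℝ) (x : Fin 3 → ℝ) :
    1 - lev g b c x = ∑ i, (1 - c i) * Lc g b i x := by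
  unfold lev
  simp only [sub_mul, one_mul]
  rw [Finset.sum_sub_distrib, Lc_sum hn.sum_v hn.sum_b]

/-- the level is at most one on the simplex -/
theorem Cut.lev_le_one (h : Cut M g b c k t y) (hn : NearOpt M s o g b p) : lev g b c (toR y) ≤ 1 := by
  have h1 := one_sub_lev hn c (toR y)
  have h2 : 0 ≤ ∑ i, (1 - c i) * Lc g b i (toR y) :=
    Finset.sum_nonneg fun i _ => mul_nonneg (sub_nonneg.2 (h.le1 i)) (hn.L_nonneg i h.memM)
  linarith

/-- `c j (1 - eps j) ≤ h` -/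
theorem Cut.row_c (h : Cut M g b c k t y) (hn : NearOpt M s o g b p) (j : Fin 4) :
    c j * Lc g b j (p j) ≤ lev g b c (toR y) := by
  refine le_trans ?_ (h.le (p j) (hn.mem j))
  exact Finset.single_le_sum (f := fun i => c i * Lc g b i (p j))
    (fun i _ => mul_nonneg (h.nn i) (hn.L_nonneg i (hn.mem j))) (Finset.mem_univ j)

/-- (p): `1 - h ≤ r.L(p j)` for all `j` -/
theorem Cut.row_pj (h : Cut M g b c k t y) (hn : NearOpt M s o g b p) (j : Fin 4) :
    1 - lev g b c (toR y) ≤ ∑ i, (1 - c i) * Lc g b i (p j) := by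
  rw [← one_sub_lev hn]
  have := h.le (p j) (hn.mem j)
  unfold lev
  linarith

/-- (p): `1 - h ≤ eps t` -/
theorem Cut.row_p (h : Cut M g b c k t y) (hn : NearOpt M s o g b p) :
    1 - lev g b c (toR y) ≤ 1 - Lc g b t (p t) := by
  have h1 := h.row_c hn t
  rw [h.one, one_mul] at h1
  linarith

/-- (S), full form -/
theorem Cut.row_S0 (h : Cut M g b c k t y) (hn : NearOpt M s o g b p) (j : Fin 4) :
    s * (1 - lev g b c (toR y)) ≤ ∑ i, (1 - c i) * (Lc g b i (p i) - Lc g b i (p j)) := by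
  refine (hn.cut (fun i => 1 - c i) (1 - lev g b c (toR y)) fun x hx => ?_).2 j
  have h1 := h.le x hx
  have h2 := one_sub_lev hn c x
  have h3 : lev g b c x ≤ lev g b c (toR y) := h1
  have h4 : ∑ i, (1 - c i) * Lc g b i x = ∑ i, (1 - c i) * (b i - g i ⬝ᵥ x) := rfl
  rw [← h4, ← h2]
  linarith

/-- (S), short form: `s (1 - h) ≤ 2 - c 0 - c 1 - c 2 - c 3 + ..`, i.e. the sum of the two other `1 - c i` -/
theorem Cut.row_S (h : Cut M g b c k t y) (hn : NearOpt M s o g b p) :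
    s * (1 - lev g b c (toR y)) ≤ ∑ i, (1 - c i) - 1 := by
  have h1 := h.row_S0 hn k
  have hkk : (1 - c k) * (Lc g b k (p k) - Lc g b k (p k)) = 0 := by rw [sub_self, mul_zero]
  have h2 : ∑ i, (1 - c i) * (Lc g b i (p i) - Lc g b i (p k)) ≤ ∑ i, (if i = k then 0 else (1 - c i)) := by
    refine Finset.sum_le_sum fun i _ => ?_
    split_ifs with hi
    · rw [hi, hkk]
    · have h3 : Lc g b i (p i) ≤ 1 := hn.L_le i (hn.mem i)
      have h4 : 0 ≤ Lc g b i (p k) := hn.L_nonneg i (hn.mem k)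
      have h5 : 0 ≤ 1 - c i := sub_nonneg.2 (h.le1 i)
      nlinarith
  have h6 : ∑ i, (if i = k then 0 else (1 - c i)) = ∑ i, (1 - c i) - 1 := by
    have h7 : ∑ i, (1 - c i) = ∑ i, (if i = k then 0 else (1 - c i)) + ∑ i, (if i = k then (1 - c i) else 0) := by
      rw [← Finset.sum_add_distrib]
      refine Finset.sum_congr rfl fun i _ => ?_
      split_ifs <;> ring
    rw [h7, Finset.sum_ite_eq' Finset.univ k, if_pos (Finset.mem_univ k), h.zero]
    ring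
  linarith

/-- budget: `1 - h / c j ≤ eps j`, i.e. `c j - h ≤ c j eps j` -/
theorem Cut.row_b (h : Cut M g b c k t y) (hn : NearOpt M s o g b p) (j : Fin 4) :
    c j - lev g b c (toR y) ≤ c j * (1 - Lc g b j (p j)) := by
  have := h.row_c hn j
  linarith

/-- a deep point beyond the cut: `τ (1 + r a + r b) ≤ 1 - h` -/
theorem Cut.deep0 (h : Cut M g b c k t y) (hn : NearOpt M s o g b p) {x : Fin 3 → ℝ} {τ : ℝ}
    (hτ : ∀ i, τ ≤ Lc g b i x) (hx : lev g b c (toR y) ≤ lev g b c x) :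
    τ * ∑ i, (1 - c i) ≤ 1 - lev g b c (toR y) := by
  have h1 := one_sub_lev hn c x
  have h2 : τ * ∑ i, (1 - c i) ≤ ∑ i, (1 - c i) * Lc g b i x := by
    rw [Finset.mul_sum]
    refine Finset.sum_le_sum fun i _ => ?_
    have h3 : 0 ≤ 1 - c i := sub_nonneg.2 (h.le1 i)
    have h4 := mul_le_mul_of_nonneg_left (hτ i) h3
    linarith
  linarith

/-- a deep point beyond the cut: `τ (1 + s (1 - h)) ≤ 1 - h` -/
theorem Cut.deep (h : Cut M g b c k t y) (hn : NearOpt M s o g b p) {x : Fin 3 → ℝ} {τ : ℝ} (hτ0 : 0 ≤ τ)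
    (hτ : ∀ i, τ ≤ Lc g b i x) (hx : lev g b c (toR y) ≤ lev g b c x) :
    τ * (1 + s * (1 - lev g b c (toR y))) ≤ 1 - lev g b c (toR y) := by
  have h1 := h.deep0 hn hτ hx
  have h2 := h.row_S hn
  have h3 : 1 + s * (1 - lev g b c (toR y)) ≤ ∑ i, (1 - c i) := by linarith
  have h4 := mul_le_mul_of_nonneg_left h3 hτ0
  linarith

/-- truncation: a deep point beyond the cut costs budget at `t` -/
theorem Cut.trunc (h : Cut M g b c k t y) (hn : NearOpt M s o g b p) {x : Fin 3 → ℝ} {τ : ℝ} (hτ0 : 0 ≤ τ)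
    (hτ : ∀ i, τ ≤ Lc g b i x) (hx : lev g b c (toR y) ≤ lev g b c x) : τ ≤ 1 - Lc g b t (p t) := by
  have h1 := h.row_p hn
  have h2 := h.deep hn hτ0 hτ hx
  have hs := hn.one_le
  have h3 := h.lev_le_one hn
  have h4 : 0 ≤ τ * (s * (1 - lev g b c (toR y))) := mul_nonneg hτ0 (mul_nonneg (by linarith) (by linarith))
  linarith

end

namespace FFacts

variable {M : Set (Fin 3 → ℝ)} {s : ℝ} {o : Fin 3 → ℝ} {g : Fin 4 → Fin 3 → ℝ} {b : Fin 4 → ℝ}
  {p : Fin 4 → Fin 3 → ℝ} {z : Fin 4 → Fin 3 → ℤ} {T : Finset (Fin 3 → ℤ)} {cc : (Fin 3 → ℤ) → Fin 4 → ℝ}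
  {i0 i1 : (Fin 3 → ℤ) → Fin 4} {wf : (Fin 3 → ℤ) → Fin 3 → ℤ}

theorem cutx (h : FFacts M s o g b p z T cc i0 i1 wf) (x : Fin 3 → ℤ) :
    Cut M g b (cc (wf x)) (i0 (wf x)) (i1 (wf x)) (wf x) := h.cut _ (h.wfT x)

theorem lev_le (h : FFacts M s o g b p z T cc i0 i1 wf) (x : Fin 3 → ℤ) :
    lev g b (cc (wf x)) (toR (wf x)) ≤ lev g b (cc (wf x)) (toR x) := h.beyond x

/-- every lattice point is shallow: `τ ≤ 1786 / 10000` -/
theorem shallow (h : FFacts M s o g b p z T cc i0 i1 wf) (x : Fin 3 → ℤ) {τ : ℝ} (hτ : ∀ i, τ ≤ Lc g b i (toR x)) :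
    τ ≤ 1786 / 10000 := by
  rcases le_or_gt τ 0 with h0 | h0
  · linarith
  have h1 := (h.cutx x).deep h.near h0.le hτ (h.lev_le x)
  have h2 := (h.cutx x).row_p h.near
  have h3 := h.eps_lt (i1 (wf x))
  have h4 := h.asym
  obtain ⟨ρ, hρ⟩ : ∃ ρ, ρ = 1 - lev g b (cc (wf x)) (toR (wf x)) := ⟨_, rfl⟩
  rw [← hρ] at h1 h2
  have h5 : ρ < 34 / 100 := by linarith
  have hρ0 : 0 ≤ ρ := by
    have := (h.cutx x).lev_le_one h.near
    linarith
  have h6 : τ * (1 + 266 / 100 * ρ) ≤ ρ := by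
    have h7 : τ * (266 / 100 * ρ) ≤ τ * (s * ρ) :=
      mul_le_mul_of_nonneg_left (mul_le_mul_of_nonneg_right h4.le hρ0) h0.le
    linarith
  by_contra hcon
  push Not at hcon
  nlinarith

end FFacts

end Pool.Agent.Helper65.FX
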