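import Pool.Agent.Helper82.TET.MChain
import Pool.Agent.Helper46.GM.Defs

/-!
# The M-circuit leaf with any number of cut points

`K` is inside the chain simplex of a system `(P, v)`, with barycentric coordinates `L_j`.  Given are
four lattice points `q k = ∑ j, M k j • P j` which form a unimodular chain, and for each `k` a
functional `N_k = ∑ j, C k j * L_j` (own facet: `C k = - e_i`, cut: `C k` = the coefficients of the
cut) with `N_k ≤ B k` on `K` and `B k ≤ N_k (q k)`, which does not decrease along the three steps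
`q l → q (l+1)`, `l ≠ k`.  Then the width of `K` is at most `2 + √2`.  No balance of the four
functionals is needed.
-/

set_option autoImplicit false

namespace Pool.Agent.Helper65.FX

open Matrix Pool.Agent.Helper12.LW
open Pool.Agent.Helper84.FL (Superbase WidthLe InPos pz pr)
open Pool.Agent.Helper46.GM (cyc LL)
open Pool.Agent.Helper82.TET (comb Uni)

/-- the lattice points of the circuit -/
def qp (M : Fin 4 → Fin 4 → ℤ) (P : Fin 4 → Fin 3 → ℤ) (k : Fin 4) : Fin 3 → ℤ :=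
  ∑ j, M k j • P j

/-- the steps of the circuit in terms of the steps of `P` -/
def AM (M : Fin 4 → Fin 4 → ℤ) (l m : Fin 4) : ℤ :=
  ∑ j, if m < j then M (l + 1) j - M l j else 0

/-- the value of the functional `C` at the point with coefficients `M k` in the slack matrix `D` -/
def val (D : Fin 4 → Fin 4 → ℝ) (C : Fin 4 → ℝ) (m : Fin 4 → ℤ) : ℝ :=
  ∑ j, C j * ∑ i, (m i : ℝ) * D i j

theorem toR_sum_smul (m : Fin 4 → ℤ) (P : Fin 4 → Fin 3 → ℤ) :
    toR (∑ j, m j • P j) = ∑ j, (m j : ℝ) • toR (P j) := by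
  funext i
  unfold toR
  simp only [Finset.sum_apply, Pi.smul_apply, smul_eq_mul]
  push_cast
  rfl

theorem LL_qp (P : Fin 4 → Fin 3 → ℤ) (v : Fin 4 → Fin 3 → ℝ) (m : Fin 4 → ℤ)
    (hm : ∑ j, m j = 1) (j : Fin 4) :
    LL P v j (toR (∑ i, m i • P i)) = ∑ i, (m i : ℝ) * LL P v j (toR (P i)) := by
  have h1 : (∑ i, (m i : ℝ)) = 1 := by
    rw [← Int.cast_sum, hm, Int.cast_one]
  unfold LL
  rw [toR_sum_smul]
  have h2 : toR (P j) - ∑ i, (m i : ℝ) • toR (P i) = ∑ i, (m i : ℝ) • (toR (P j) - toR (P i)) := by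
    simp only [smul_sub, Finset.sum_sub_distrib]
    rw [← Finset.sum_smul, h1, one_smul]
  rw [h2, dotProduct_sum]
  exact Finset.sum_congr rfl fun i _ => by rw [dotProduct_smul, smul_eq_mul]

/-- the linear part of the functional -/
noncomputable def nf (v : Fin 4 → Fin 3 → ℝ) (C : Fin 4 → ℝ) : Fin 3 → ℝ := -∑ j, C j • v j

theorem pr_eq (n x : Fin 3 → ℝ) : pr n x = n ⬝ᵥ x := rfl

theorem pz_eq (n : Fin 3 → ℝ) (z : Fin 3 → ℤ) : pz n z = n ⬝ᵥ toR z := rfl

theorem nf_eq (P : Fin 4 → Fin 3 → ℤ) (v : Fin 4 → Fin 3 → ℝ) (C : Fin 4 → ℝ) (x : Fin 3 → ℝ) :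
    nf v C ⬝ᵥ x = ∑ j, C j * LL P v j x - ∑ j, C j * (v j ⬝ᵥ toR (P j)) := by
  unfold nf LL
  rw [neg_dotProduct, sum_dotProduct, ← Finset.sum_sub_distrib, ← Finset.sum_neg_distrib]
  refine Finset.sum_congr rfl fun j _ => ?_
  rw [smul_dotProduct, smul_eq_mul, dotProduct_sub]
  ring

theorem qp_step (M : Fin 4 → Fin 4 → ℤ) (hrow : ∀ k, ∑ j, M k j = 1) (P : Fin 4 → Fin 3 → ℤ)
    (l : Fin 4) : qp M P (l + 1) = qp M P l + comb (AM M) (cyc P) l := by
  have h0 := hrow l
  have h1 := hrow (l + 1)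
  rw [Fin.sum_univ_four] at h0 h1
  funext i
  unfold qp comb AM
  simp only [Fin.sum_univ_four, Pi.add_apply, Pi.smul_apply, smul_eq_mul, cyc,
    Matrix.cons_val_zero, Matrix.cons_val_one, Matrix.cons_val, Pi.sub_apply]
  have d00 : ¬ ((0 : Fin 4) < 0) := by decide
  have d01 : (0 : Fin 4) < 1 := by decide
  have d02 : (0 : Fin 4) < 2 := by decide
  have d03 : (0 : Fin 4) < 3 := by decide
  have d10 : ¬ ((1 : Fin 4) < 0) := by decide
  have d11 : ¬ ((1 : Fin 4) < 1) := by decide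
  have d12 : (1 : Fin 4) < 2 := by decide
  have d13 : (1 : Fin 4) < 3 := by decide
  have d20 : ¬ ((2 : Fin 4) < 0) := by decide
  have d21 : ¬ ((2 : Fin 4) < 1) := by decide
  have d22 : ¬ ((2 : Fin 4) < 2) := by decide
  have d23 : (2 : Fin 4) < 3 := by decide
  have d30 : ¬ ((3 : Fin 4) < 0) := by decide
  have d31 : ¬ ((3 : Fin 4) < 1) := by decide
  have d32 : ¬ ((3 : Fin 4) < 2) := by decide
  have d33 : ¬ ((3 : Fin 4) < 3) := by decide
  simp only [d00, d01, d02, d03, d10, d11, d12, d13, d20, d21, d22, d23, d30, d31, d32, d33,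
    if_true, if_false]
  have e : M (l + 1) 0 - M l 0
      = -((M (l + 1) 1 - M l 1) + (M (l + 1) 2 - M l 2) + (M (l + 1) 3 - M l 3)) := by linarith
  have e2 : M (l + 1) 0 = M l 0
      - ((M (l + 1) 1 - M l 1) + (M (l + 1) 2 - M l 2) + (M (l + 1) 3 - M l 3)) := by linarith
  rw [e2]
  ring

/-- **M-circuit leaf**, with the four points of the circuit and the four functionals. -/
theorem mcirc_gen (K : Set (Fin 3 → ℝ)) (hK : Bornology.IsBounded K) (P : Fin 4 → Fin 3 → ℤ)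
    (v : Fin 4 → Fin 3 → ℝ) (hsb : Superbase (cyc P))
    (M : Fin 4 → Fin 4 → ℤ) (hrow : ∀ k, ∑ j, M k j = 1) (B : Fin 4 → Fin 4 → ℤ)
    (hU : Uni (AM M) B) (C : Fin 4 → Fin 4 → ℝ) (b : Fin 4 → ℝ)
    (hC : ∀ k, ∀ x ∈ K, ∑ j, C k j * LL P v j x ≤ b k)
    (hb : ∀ k, b k ≤ val (fun i j => LL P v j (toR (P i))) (C k) (M k))
    (hpos : ∀ k l, l ≠ k → val (fun i j => LL P v j (toR (P i))) (C k) (M l)
      ≤ val (fun i j => LL P v j (toR (P i))) (C k) (M (l + 1)))
    (hne : ∀ k, ∑ j, C k j • v j ≠ 0) : WidthLe K (2 + Real.sqrt 2) := by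
  have hval : ∀ k l, val (fun i j => LL P v j (toR (P i))) (C k) (M l)
      = ∑ j, C k j * LL P v j (toR (qp M P l)) := by
    intro k l
    unfold val qp
    exact Finset.sum_congr rfl fun j _ => by rw [LL_qp P v (M l) (hrow l) j]
  refine Pool.Agent.Helper84.FL.width_chain (comb (AM M) (cyc P))
    (Pool.Agent.Helper82.TET.superbase_comb _ B hU _ hsb) (qp M P) (qp_step M hrow P)
    (fun k => nf v (C k)) ?_ K hK ?_
  · intro k
    refine ⟨?_, fun l hl => ?_⟩
    · unfold nf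
      exact neg_ne_zero.2 (hne k)
    · have h1 : pz (nf v (C k)) (comb (AM M) (cyc P) l)
          = nf v (C k) ⬝ᵥ toR (qp M P (l + 1)) - nf v (C k) ⬝ᵥ toR (qp M P l) := by
        rw [qp_step M hrow P l, Pool.Agent.Helper46.GM.toR_add, dotProduct_add, pz_eq]
        ring
      rw [h1, nf_eq P, nf_eq P]
      have h2 := hpos k l hl
      rw [hval, hval] at h2
      linarith
  · intro k x hx
    rw [pr_eq, pz_eq, nf_eq P, nf_eq P]
    have h1 := hC k x hx
    have h2 := hb k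
    rw [hval] at h2
    linarith

/-- if the `v j` span and have sum zero, a nonconstant combination does not vanish -/
theorem comb_ne_zero (v : Fin 4 → Fin 3 → ℝ) (hv : ∑ j, v j = 0)
    (hspan : ∀ m : Fin 3 → ℝ, ∃ c : Fin 4 → ℝ, ∑ k, c k • v k = m) (C : Fin 4 → ℝ)
    (hC : ∃ i j, C i ≠ C j) : ∑ j, C j • v j ≠ 0 := by
  intro h0
  -- the kernel of `c ↦ ∑ c k • v k` is one dimensional
  let T : (Fin 4 → ℝ) →ₗ[ℝ] (Fin 3 → ℝ) :=
    { toFun := fun c => ∑ k, c k • v k
      map_add' := fun a b => by simp [add_smul, Finset.sum_add_distrib]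
      map_smul' := fun r a => by simp [mul_smul, Finset.smul_sum] }
  have hsurj : Function.Surjective T := fun m => hspan m
  have hrange : LinearMap.range T = ⊤ := LinearMap.range_eq_top.2 hsurj
  have hdim := LinearMap.finrank_range_add_finrank_ker T
  rw [hrange, finrank_top, Module.finrank_fin_fun, Module.finrank_fin_fun] at hdim
  have hker : Module.finrank ℝ (LinearMap.ker T) = 1 := by omega
  have hone : (fun _ => (1 : ℝ)) ∈ LinearMap.ker T := by
    show ∑ k, (1 : ℝ) • v k = 0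
    simpa using hv
  have hone' : (⟨fun _ => (1 : ℝ), hone⟩ : LinearMap.ker T) ≠ 0 := by
    intro h
    have := congrFun (congrArg Subtype.val h) 0
    simp at this
  obtain ⟨r, hr⟩ := (finrank_eq_one_iff_of_nonzero' _ hone').1 hker ⟨C, h0⟩
  obtain ⟨i, j, hij⟩ := hC
  have h1 : ∀ k, C k = r := fun k => by
    have := congrFun (congrArg Subtype.val hr) k
    simpa using this.symm
  exact hij (by rw [h1 i, h1 j])

/-- **M-circuit leaf** for a nondegenerate chain simplex. -/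
theorem mcirc (K : Set (Fin 3 → ℝ)) (hK : Bornology.IsBounded K) (P : Fin 4 → Fin 3 → ℤ)
    (v : Fin 4 → Fin 3 → ℝ) (hsb : Superbase (cyc P)) (hv : ∑ j, v j = 0)
    (hspan : ∀ m : Fin 3 → ℝ, ∃ c : Fin 4 → ℝ, ∑ k, c k • v k = m)
    (M : Fin 4 → Fin 4 → ℤ) (hrow : ∀ k, ∑ j, M k j = 1) (B : Fin 4 → Fin 4 → ℤ)
    (hU : Uni (AM M) B) (C : Fin 4 → Fin 4 → ℝ) (b : Fin 4 → ℝ)
    (hC : ∀ k, ∀ x ∈ K, ∑ j, C k j * LL P v j x ≤ b k)
    (hb : ∀ k, b k ≤ val (fun i j => LL P v j (toR (P i))) (C k) (M k))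
    (hpos : ∀ k l, l ≠ k → val (fun i j => LL P v j (toR (P i))) (C k) (M l)
      ≤ val (fun i j => LL P v j (toR (P i))) (C k) (M (l + 1)))
    (hne : ∀ k, ∃ i j, C k i ≠ C k j) : WidthLe K (2 + Real.sqrt 2) :=
  mcirc_gen K hK P v hsb M hrow B hU C b hC hb hpos
    (fun k => comb_ne_zero v hv hspan (C k) (hne k))

end Pool.Agent.Helper65.FX
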