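import Pool.Agent.Helper38.TET.Tet

/-!
# Kuhn-Sperner around a simplex which may contain lattice points

`g`, `b` describe a simplex `S`.  Lattice points outside the interior of `S` carry the label of a facet which they
violate most, lattice points in the interior of `S` carry any label.
-/

set_option autoImplicit false

namespace Pool.Agent.Helper65.FX

open Matrix Pool.Agent.Helper12.LW Pool.Agent.Helper1.UB
open Pool.Agent.Helper84.FL (Superbase pz pr labE kv labE_kv eq_of_pz)
open Pool.Agent.Helper21.TET (chainS exists_ext exists_ctrl rel_const)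

/-- **Kuhn-Sperner with the labels of the facets, free labels inside the simplex** -/
theorem sperner_label (g : Fin 4 → Fin 3 → ℝ) (b : Fin 4 → ℝ) (hg : ∑ j, g j = 0)
    (hspan : ∀ m : Fin 3 → ℝ, ∃ c : Fin 4 → ℝ, ∑ k, c k • g k = m)
    (J : (Fin 3 → ℤ) → Fin 4)
    (hJ' : ∀ z, (∀ i, g i ⬝ᵥ toR z < b i) ∨ ∀ i, g i ⬝ᵥ toR z - b i ≤ g (J z) ⬝ᵥ toR z - b (J z))
    (f : Fin 4 → Fin 3 → ℤ) (hf : ∑ l, f l = 0) (hdet : IsUnit (Matrix.of ![f 0, f 1, f 2]).det) :
    ∃ (z : Fin 3 → ℤ) (σ ρ : Equiv.Perm (Fin 4)), ∀ k, J (z + chainS f σ k) = ρ k := by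
  classical
  have hsb := Pool.Agent.Helper1.UB.LW.superbase_of_det f hf hdet
  obtain ⟨A, hA, hctrl⟩ := exists_ctrl g hg hspan
  obtain ⟨C, hC, hlarge⟩ := reE_large f hsb
  set D : ℝ := ∑ i : Fin 3, ∑ k : Fin 3, |(f i.castSucc k : ℝ)| with hD
  have hD0 : 0 ≤ D := Finset.sum_nonneg (fun i _ => Finset.sum_nonneg (fun k _ => abs_nonneg _))
  set B : ℝ := ∑ j, |b j| with hB
  have hB0 : 0 ≤ B := Finset.sum_nonneg (fun j _ => abs_nonneg _)
  have hBj : ∀ j, |b j| ≤ B := fun j =>
    Finset.single_le_sum (f := fun j => |b j|) (fun j _ => abs_nonneg _) (Finset.mem_univ j)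
  set G : ℝ := ∑ j, ∑ i : Fin 3, |g j i| with hG
  have hG0 : 0 ≤ G := Finset.sum_nonneg (fun j _ => Finset.sum_nonneg (fun k _ => abs_nonneg _))
  set T : ℝ := D + A * (2 * B + G * D + 1) + 1 with hT
  have hT0 : 0 < T := by positivity
  obtain ⟨M, hM⟩ := exists_nat_ge (C * T)
  have hM0 : 0 < M := by
    have h1 : (0 : ℝ) < M := lt_of_lt_of_le (mul_pos hC hT0) hM
    exact_mod_cast h1
  obtain ⟨z, π, mu, hmu, hmu0, hsum⟩ := kuhn_zero
    (fun v i => pz (g (J (labE f v))) (f i.castSucc)) M hM0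
    (by
      intro x hxM ⟨i, hi⟩ v hv
      show 0 < ∑ i : Fin 3, pz (g (J (labE f v))) (f i.castSucc) * x i
      rw [← pr_reE]
      obtain ⟨k, hk⟩ := hlarge x i T hT0 (by rw [hi]; exact hM)
      have hdiff : ∀ m, |(labE f v m : ℝ) - reE f x m| ≤ D := by
        intro m
        rw [labE_real]
        unfold reE
        rw [← Finset.sum_sub_distrib]
        refine (Finset.abs_sum_le_sum_abs _ _).trans ?_
        refine Finset.sum_le_sum (fun j _ => ?_)
        rw [← sub_mul, abs_mul]
        have h1 : |(v j : ℝ) - x j| ≤ 1 := by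
          rw [abs_sub_comm]; exact hv j
        have h2 : |(f j.castSucc m : ℝ)| ≤ ∑ k : Fin 3, |(f j.castSucc k : ℝ)| :=
          Finset.single_le_sum (f := fun k : Fin 3 => |(f j.castSucc k : ℝ)|)
            (fun k _ => abs_nonneg _) (Finset.mem_univ m)
        calc |(v j : ℝ) - x j| * |(f j.castSucc m : ℝ)| ≤ 1 * |(f j.castSucc m : ℝ)| :=
              mul_le_mul_of_nonneg_right h1 (abs_nonneg _)
          _ ≤ _ := by rw [one_mul]; exact h2
      set w := labE f v with hw
      set j := J w with hj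
      set s : ℝ := g j ⬝ᵥ toR w - b j with hs
      have h3' : |toR w k| ≥ T - D := by
        have a1 : |reE f x k| ≤ |toR w k| + |(labE f v k : ℝ) - reE f x k| := by
          have a2 := abs_sub_abs_le_abs_sub (reE f x k) (labE f v k : ℝ)
          rw [abs_sub_comm] at a2
          have a3 : |toR w k| = |(labE f v k : ℝ)| := rfl
          linarith
        have a2 := hdiff k
        linarith
      have hJ : ∀ i, g i ⬝ᵥ toR w - b i ≤ g (J w) ⬝ᵥ toR w - b (J w) := by
        refine (hJ' w).resolve_left fun hin => ?_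
        have a1 := hctrl (toR w) B (fun i => (hin i).le.trans (le_of_abs_le (hBj i))) k
        have a2 : A * B ≤ A * (2 * B + G * D + 1) :=
          mul_le_mul_of_nonneg_left (by have := mul_nonneg hG0 hD0; linarith) hA.le
        linarith
      have h1 : ∀ i, g i ⬝ᵥ toR w ≤ s + B := by
        intro i
        have a1 := hJ i
        have a2 := (abs_le.1 (hBj i)).2
        have a3 : g i ⬝ᵥ toR w - b i ≤ s := a1
        linarith
      have h2 := hctrl (toR w) (s + B) h1 k
      have h3 : |toR w k| ≥ T - D := by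
        have a1 : |reE f x k| ≤ |toR w k| + |(labE f v k : ℝ) - reE f x k| := by
          have a2 := abs_sub_abs_le_abs_sub (reE f x k) (labE f v k : ℝ)
          rw [abs_sub_comm] at a2
          have a3 : |toR w k| = |(labE f v k : ℝ)| := rfl
          linarith
        have a2 := hdiff k
        linarith
      have h4 : 2 * B + G * D + 1 < s + B := by
        by_contra hcon
        push Not at hcon
        have h5 : A * (s + B) ≤ A * (2 * B + G * D + 1) := mul_le_mul_of_nonneg_left hcon hA.le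
        linarith
      have h5 : |g j ⬝ᵥ (toR w - reE f x)| ≤ G * D := by
        unfold dotProduct
        refine (Finset.abs_sum_le_sum_abs _ _).trans ?_
        have h6 : ∑ i : Fin 3, |g j i| ≤ G := by
          rw [hG]
          exact Finset.single_le_sum (f := fun j => ∑ i : Fin 3, |g j i|)
            (fun j _ => Finset.sum_nonneg (fun i _ => abs_nonneg _)) (Finset.mem_univ j)
        calc ∑ i : Fin 3, |g j i * (toR w - reE f x) i| ≤ ∑ i : Fin 3, |g j i| * D := by
              refine Finset.sum_le_sum (fun i _ => ?_)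
              rw [abs_mul]
              exact mul_le_mul_of_nonneg_left (hdiff i) (abs_nonneg _)
          _ = (∑ i : Fin 3, |g j i|) * D := by rw [Finset.sum_mul]
          _ ≤ G * D := mul_le_mul_of_nonneg_right h6 hD0
      have h6 : pr (g j) (reE f x) = g j ⬝ᵥ toR w - g j ⬝ᵥ (toR w - reE f x) := by
        rw [dotProduct_sub, sub_sub_cancel]
        rfl
      rw [h6]
      have h7 := (abs_le.1 h5).2
      have h8 := (abs_le.1 (hBj j)).1
      linarith)
  set jk : Fin 4 → Fin 4 := fun k => J (labE f (kv z π k)) with hjk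
  have hw0 : ∑ k : Fin 4, mu k • g (jk k) = 0 := by
    apply eq_of_pz f hsb
    have hadd : ∀ (u : Fin 3 → ℤ), pz (∑ k : Fin 4, mu k • g (jk k)) u = ∑ k : Fin 4, mu k * pz (g (jk k)) u := by
      intro u
      unfold pz
      simp only [Finset.sum_apply, Pi.smul_apply, smul_eq_mul, Finset.sum_mul, Finset.mul_sum]
      rw [Finset.sum_comm]
      exact Finset.sum_congr rfl (fun i _ => Finset.sum_congr rfl (fun k _ => by ring))
    have hzero : ∀ (u : Fin 3 → ℤ), pz (0 : Fin 3 → ℝ) u = 0 := by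
      intro u
      simp [pz]
    have h3 : ∀ i : Fin 3, pz (∑ k : Fin 4, mu k • g (jk k)) (f i.castSucc) = 0 := by
      intro i
      rw [hadd]
      exact hsum i
    intro l
    rw [hzero]
    refine Fin.lastCases ?_ (fun i => h3 i) l
    have h4 : f (Fin.last 3) = -∑ i : Fin 3, f i.castSucc := by
      rw [Fin.sum_univ_castSucc] at hf
      exact eq_neg_of_add_eq_zero_right hf
    have h5 : ∀ (n : Fin 3 → ℝ), pz n (f (Fin.last 3)) = -∑ i : Fin 3, pz n (f i.castSucc) := by
      intro n
      rw [h4]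
      unfold pz
      simp only [Pi.neg_apply, Finset.sum_apply, Int.cast_neg, Int.cast_sum, mul_neg,
        Finset.sum_neg_distrib, Finset.mul_sum, neg_inj]
      exact Finset.sum_comm
    rw [h5, Finset.sum_eq_zero (fun i _ => h3 i), neg_zero]
  set m : Fin 4 → ℝ := fun i => ∑ k : Fin 4, if jk k = i then mu k else 0 with hm
  have hmsum : ∑ i, m i • g i = 0 := by
    rw [← hw0]
    simp only [hm, Finset.sum_smul]
    rw [Finset.sum_comm]
    refine Finset.sum_congr rfl (fun k _ => ?_)
    simp only [ite_smul, zero_smul]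
    rw [Finset.sum_ite_eq]
    simp
  have hconst := rel_const g hg hspan m hmsum
  have hpos : 0 < m (jk 0) := by
    have h1 : mu 0 ≤ m (jk 0) := by
      rw [hm]
      have h2 := Finset.single_le_sum (f := fun k : Fin 4 => if jk k = jk 0 then mu k else 0)
        (fun k _ => by
          by_cases h : jk k = jk 0
          · simp only [h, if_true]
            exact hmu k
          · simp only [h, if_false]
            exact le_refl _) (Finset.mem_univ (0 : Fin 4))
      simpa using h2
    linarith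
  have hsurj : Function.Surjective jk := by
    intro i
    by_contra hcon
    push Not at hcon
    have h1 : m i = 0 := by
      rw [hm]
      refine Finset.sum_eq_zero (fun k _ => ?_)
      rw [if_neg (hcon k)]
    have h2 := hconst i
    have h3 := hconst (jk 0)
    rw [h1] at h2
    rw [← h2] at h3
    linarith
  obtain ⟨σ, hσ⟩ := exists_ext π
  refine ⟨labE f z, σ, Equiv.ofBijective jk (Finite.surjective_iff_bijective.1 hsurj), ?_⟩
  intro k
  have hP : labE f z + chainS f σ k = labE f (kv z π k) := by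
    rw [Pool.Agent.Helper1.UB.LW.labE_chain f z π k (by omega)]
    congr 1
    unfold chainS
    rw [Fin.sum_univ_castSucc]
    have h1 : ¬ (Fin.last 3 < k) := not_lt.2 (Fin.le_last k)
    rw [if_neg h1, add_zero]
    refine Finset.sum_congr rfl (fun j _ => ?_)
    rw [hσ]
    have h2 : (Fin.castSucc j < k) ↔ ((j : ℕ) < (k : ℕ)) := Iff.rfl
    by_cases h3 : (j : ℕ) < (k : ℕ)
    · rw [if_pos (h2.2 h3), if_pos h3]
    · rw [if_neg (fun h => h3 (h2.1 h)), if_neg h3]
  rw [hP]
  rfl

/-- the same with an arbitrary label function for the inner points -/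
theorem sperner_free (g : Fin 4 → Fin 3 → ℝ) (b : Fin 4 → ℝ) (hg : ∑ j, g j = 0)
    (hspan : ∀ m : Fin 3 → ℝ, ∃ c : Fin 4 → ℝ, ∑ k, c k • g k = m)
    (lab : (Fin 3 → ℤ) → Fin 4)
    (f : Fin 4 → Fin 3 → ℤ) (hf : ∑ l, f l = 0) (hdet : IsUnit (Matrix.of ![f 0, f 1, f 2]).det) :
    ∃ (z : Fin 3 → ℤ) (σ ρ : Equiv.Perm (Fin 4)), ∀ k,
      b (ρ k) ≤ g (ρ k) ⬝ᵥ toR (z + chainS f σ k) ∨
      ((∀ j, g j ⬝ᵥ toR (z + chainS f σ k) < b j) ∧ lab (z + chainS f σ k) = ρ k) := by
  classical
  have hex : ∀ z : Fin 3 → ℤ, ∃ j, ∀ i, g i ⬝ᵥ toR z - b i ≤ g j ⬝ᵥ toR z - b j := fun z =>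
    Finite.exists_max (fun j => g j ⬝ᵥ toR z - b j)
  choose J0 hJ0 using hex
  obtain ⟨J, hJ⟩ : ∃ J : (Fin 3 → ℤ) → Fin 4, J = fun z => if ∀ j, g j ⬝ᵥ toR z < b j then lab z else J0 z := ⟨_, rfl⟩
  obtain ⟨z, σ, ρ, h⟩ := sperner_label g b hg hspan J (fun z => by
    by_cases hz : ∀ j, g j ⬝ᵥ toR z < b j
    · exact Or.inl hz
    · refine Or.inr fun i => ?_
      rw [hJ]
      simp only [if_neg hz]
      exact hJ0 z i) f hf hdet
  refine ⟨z, σ, ρ, fun k => ?_⟩
  have hk := h k
  simp only [hJ] at hk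
  by_cases hz : ∀ j, g j ⬝ᵥ toR (z + chainS f σ k) < b j
  · rw [if_pos hz] at hk
    exact Or.inr ⟨hz, hk⟩
  · rw [if_neg hz] at hk
    refine Or.inl ?_
    push Not at hz
    obtain ⟨j, hj⟩ := hz
    have h1 := hJ0 (z + chainS f σ k) j
    rw [hk] at h1
    linarith

end Pool.Agent.Helper65.FX
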