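import Pool.Agent.Helper65.FX.EChain
import Pool.Agent.Helper1.FX.NearMax

/-!
# The chain of an obtuse superbase of the facet simplex of the asymmetry, with unmoved facets

`uchain`: any simplex, any labels at the inner lattice points, facets not moved.  `facet_cut`: the coefficients of a
facet in the normals of the simplex.  `AData`, `exists_adata`: the data for the polytope of `FacetOpt`.
-/

set_option autoImplicit false

namespace Pool.Agent.Helper65.FX

open Matrix Pool.Agent.Helper12.LW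
open Pool.Agent.Helper84.FL (Superbase WidthLe)
open Pool.Agent.Helper21.TET (chainS)
open Pool.Agent.Helper38.TET (Qg Qg_posDef Qg_form det_of_superb chainS_step OChain)
open Pool.Agent.Helper1.FX.Max (FacetOpt exists_facetOpt)
open Pool.Agent.Helper36.FX (NearOpt)

/-- **The chain of an obtuse superbase of a simplex, free labels at the inner points, facets not moved.** -/
theorem uchain (g : Fin 4 → Fin 3 → ℝ) (b : Fin 4 → ℝ) (hg : ∑ j, g j = 0)
    (hspan : ∀ m : Fin 3 → ℝ, ∃ c : Fin 4 → ℝ, ∑ k, c k • g k = m) (lab : (Fin 3 → ℤ) → Fin 4) :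
    ∃ (f P : Fin 4 → Fin 3 → ℤ) (ρ : Equiv.Perm (Fin 4)),
      Superbase f ∧ (∀ k, P (k + 1) = P k + f k) ∧
      (∀ l m, l ≠ m → ∑ j, (g j ⬝ᵥ toR (f l)) * (g j ⬝ᵥ toR (f m)) ≤ 0) ∧
      ∀ k, b (ρ k) ≤ g (ρ k) ⬝ᵥ toR (P k) ∨
        ((∀ j, g j ⬝ᵥ toR (P k) < b j) ∧ lab (P k) = ρ k) := by
  classical
  obtain ⟨f, u, hfu, hob⟩ := Pool.Agent.Helper22.Sym.selling (Qg g) (Qg_posDef g hspan)
  have hdet := det_of_superb f u hfu
  have hsb := Pool.Agent.Helper1.UB.LW.superbase_of_det f hfu.1 hdet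
  obtain ⟨z, σ, ρ, hz⟩ := sperner_free g b hg hspan lab f hfu.1 hdet
  refine ⟨fun l => f (σ l), fun k => z + chainS f σ k, ρ, ⟨?_, fun w => ?_⟩, ?_, ?_, hz⟩
  · rw [Equiv.sum_comp σ f, hfu.1]
  · obtain ⟨a, ha⟩ := hsb.span w
    refine ⟨fun l => a (σ l), ?_⟩
    rw [ha]
    exact (Equiv.sum_comp σ fun l => a l • f l).symm
  · intro k
    show z + chainS f σ (k + 1) = z + chainS f σ k + f (σ k)
    rw [chainS_step f hfu.1, add_assoc]
  · intro l m hlm
    have h2 := hob (σ l) (σ m) fun h => hlm (σ.injective h)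
    have h3 : (Pool.Agent.Helper22.Sym.toR (f (σ l))) ⬝ᵥ Qg g *ᵥ
        (Pool.Agent.Helper22.Sym.toR (f (σ m))) = ∑ j, (g j ⬝ᵥ toR (f (σ l))) * (g j ⬝ᵥ toR (f (σ m))) :=
      Qg_form g _ _
    rw [h3] at h2
    exact h2

/-- the coefficients of a facet: `n` is minus a positive multiple of `∑ c i g i`, `c ≥ 0`, minimum `0`, maximum `1` -/
theorem facet_cut (g : Fin 4 → Fin 3 → ℝ) (hg : ∑ j, g j = 0)
    (hspan : ∀ m : Fin 3 → ℝ, ∃ c : Fin 4 → ℝ, ∑ k, c k • g k = m) (n : Fin 3 → ℝ) (hn : n ≠ 0) :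
    ∃ (i0 i1 : Fin 4) (c : Fin 4 → ℝ) (κ : ℝ), i0 ≠ i1 ∧ c i0 = 0 ∧ c i1 = 1 ∧ (∀ i, 0 ≤ c i) ∧ (∀ i, c i ≤ 1) ∧
      0 < κ ∧ ∑ i, c i • g i = -(κ • n) := by
  classical
  obtain ⟨d, hd⟩ := hspan n
  obtain ⟨i0, h0⟩ := Finite.exists_max d
  obtain ⟨i1, h1⟩ := Finite.exists_min d
  have hne : d i1 < d i0 := by
    by_contra hcon
    push Not at hcon
    have hall : ∀ i, d i = d i0 := fun i => le_antisymm (h0 i) (hcon.trans (h1 i))
    apply hn
    rw [← hd]
    calc ∑ k, d k • g k = ∑ k, d i0 • g k := Finset.sum_congr rfl fun k _ => by rw [hall]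
      _ = 0 := by rw [← Finset.smul_sum, hg, smul_zero]
  have hpos : 0 < d i0 - d i1 := sub_pos.2 hne
  refine ⟨i0, i1, fun i => (d i0 - d i) / (d i0 - d i1), (d i0 - d i1)⁻¹, ?_, ?_, ?_, ?_, ?_, inv_pos.2 hpos, ?_⟩
  · intro h
    rw [h] at hne
    exact lt_irrefl _ hne
  · show (d i0 - d i0) / (d i0 - d i1) = 0
    rw [sub_self, zero_div]
  · exact div_self hpos.ne'
  · exact fun i => div_nonneg (sub_nonneg.2 (h0 i)) hpos.le
  · exact fun i => (div_le_one hpos).2 (sub_le_sub_left (h1 i) _)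
  · have : ∀ i, ((d i0 - d i) / (d i0 - d i1)) • g i
        = ((d i0 - d i1)⁻¹ * d i0) • g i - (d i0 - d i1)⁻¹ • d i • g i := by
      intro i
      rw [smul_smul, ← sub_smul]
      congr 1
      field_simp
    simp only [this]
    rw [Finset.sum_sub_distrib, ← Finset.smul_sum (r := (d i0 - d i1)⁻¹ * d i0), hg, smul_zero, ← Finset.smul_sum, hd,
      zero_sub]

end Pool.Agent.Helper65.FX
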